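import Pool.Agent.H83.UE.Targets

/-!
Board uda_modules, row BF: factorisation of binary forms.
-/

set_option autoImplicit false

open Polynomial

namespace Pool.Agent.H74.UDA.BF

open Pool.Agent.H83.UE

theorem hev_sub (D : ℕ) (A B : ℂ[X]) (w : ℂ × ℂ) :
    hev D (A - B) w = hev D A w - hev D B w := by
  unfold hev
  rw [← Finset.sum_sub_distrib]
  refine Finset.sum_congr rfl fun i _ => ?_
  rw [coeff_sub]
  ring

theorem hev_C_mul (D : ℕ) (a : ℂ) (A : ℂ[X]) (w : ℂ × ℂ) :
    hev D (C a * A) w = a * hev D A w := by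
  unfold hev
  rw [Finset.mul_sum]
  refine Finset.sum_congr rfl fun i _ => ?_
  rw [coeff_C_mul]
  ring

theorem hev_X_mul (D : ℕ) (B : ℂ[X]) (w : ℂ × ℂ) :
    hev (D + 1) (X * B) w = w.1 * hev D B w := by
  unfold hev
  rw [Finset.sum_range_succ', Finset.mul_sum]
  simp only [coeff_X_mul, coeff_X_mul_zero, zero_mul, add_zero]
  refine Finset.sum_congr rfl fun i _ => ?_
  rw [Nat.add_sub_add_right]
  ring

theorem hev_succ (D : ℕ) (A : ℂ[X]) (h : A.natDegree ≤ D) (w : ℂ × ℂ) :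
    hev (D + 1) A w = w.2 * hev D A w := by
  unfold hev
  rw [Finset.sum_range_succ, coeff_eq_zero_of_natDegree_lt (by omega), Finset.mul_sum]
  simp only [zero_mul, add_zero]
  refine Finset.sum_congr rfl fun i hi => ?_
  have hi' : i ≤ D := by
    have := Finset.mem_range.1 hi
    omega
  have : D + 1 - i = (D - i) + 1 := by omega
  rw [this, pow_succ]
  ring

theorem wd_norm (w y : ℂ × ℂ) (hy : y ≠ 0) :
    ∃ (x : ℂ × ℂ) (a : ℂ), ‖x‖ = 1 ∧ a ≠ 0 ∧ wd w y = a * wd w x ∧
      ∀ w', wd w' y = a * wd w' x := by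
  have hn : (‖y‖ : ℝ) ≠ 0 := norm_ne_zero_iff.2 hy
  have hc : ((‖y‖ : ℝ) : ℂ) ≠ 0 := by exact_mod_cast hn
  have key : ∀ w', wd w' y = ((‖y‖ : ℝ) : ℂ) * wd w' (((‖y‖ : ℝ) : ℂ)⁻¹ • y) := by
    intro w'
    unfold wd
    simp only [Prod.smul_fst, Prod.smul_snd, smul_eq_mul]
    field_simp
  refine ⟨((‖y‖ : ℝ) : ℂ)⁻¹ • y, ((‖y‖ : ℝ) : ℂ), ?_, hc, key w, key⟩
  rw [norm_smul, norm_inv, Complex.norm_real, norm_norm, inv_mul_cancel₀ hn]

theorem pf_BF : T_BF := by
  intro D
  induction D with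
  | zero =>
    intro A hA hd
    have h1 : A = C (A.coeff 0) := eq_C_of_natDegree_eq_zero (Nat.le_zero.1 hd)
    have h2 : A.coeff 0 ≠ 0 := by
      intro h0
      rw [h0, C_0] at h1
      exact hA h1
    refine ⟨A.coeff 0, h2, fun i => i.elim0, fun i => i.elim0, fun w => ?_⟩
    unfold hev
    simp
  | succ D ih =>
    intro A hA hd
    have key : ∃ (B : ℂ[X]) (y : ℂ × ℂ) (s : ℂ), B ≠ 0 ∧ B.natDegree ≤ D ∧ y ≠ 0 ∧ s ≠ 0 ∧
        ∀ w, hev (D + 1) A w = (s * wd w y) * hev D B w := by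
      by_cases hle : A.natDegree ≤ D
      · refine ⟨A, (1, 0), -1, hA, hle, by simp, by norm_num, fun w => ?_⟩
        rw [hev_succ D A hle]
        unfold wd
        ring
      · have hdeg : A.natDegree = D + 1 := by omega
        obtain ⟨r, hr⟩ := IsAlgClosed.exists_root A (by
          intro h0
          have := natDegree_eq_of_degree_eq_some (n := 0) (by simpa using h0)
          omega)
        obtain ⟨B, hB⟩ := dvd_iff_isRoot.2 hr
        have hB0 : B ≠ 0 := by
          rintro rfl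
          exact hA (by rw [hB, mul_zero])
        have hBd : B.natDegree ≤ D := by
          have h3 := congrArg natDegree hB
          rw [natDegree_mul (X_sub_C_ne_zero r) hB0, natDegree_X_sub_C, hdeg] at h3
          omega
        refine ⟨B, (r, 1), 1, hB0, hBd, by simp, one_ne_zero, fun w => ?_⟩
        rw [hB, sub_mul, hev_sub, hev_X_mul, hev_C_mul, hev_succ D B hBd]
        unfold wd
        ring
    obtain ⟨B, y, s, hB, hBd, hy, hs, hw⟩ := key
    obtain ⟨c, hc, x, hx, hcx⟩ := ih B hB hBd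
    obtain ⟨x0, a, hx0, ha, -, hax⟩ := wd_norm 0 y hy
    refine ⟨s * a * c, mul_ne_zero (mul_ne_zero hs ha) hc, Fin.cons x0 x, ?_, fun w => ?_⟩
    · intro i
      refine Fin.cases ?_ (fun j => ?_) i
      · simpa using hx0
      · simpa using hx j
    · rw [hw, hcx, hax, Fin.prod_univ_succ]
      simp only [Fin.cons_zero, Fin.cons_succ]
      ring

end Pool.Agent.H74.UDA.BF
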