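import Pool.Agent.H74.UDA.BF

/-!
Board uda_modules, row LJ0: the trivial Lojasiewicz exponent.
-/

set_option autoImplicit false

open Polynomial Filter Topology

namespace Pool.Agent.H74.UDA.LJ0

open Pool.Agent.H83.UE
open Pool.Agent.H74.UDA.BF (hev_sub hev_C_mul)

theorem hev_continuous (D : ℕ) (A : ℂ[X]) : Continuous (hev D A) := by
  unfold hev
  fun_prop

theorem hev_norm_le (D : ℕ) (A : ℂ[X]) (w : ℂ × ℂ) :
    ‖hev D A w‖ ≤ (∑ i ∈ Finset.range (D + 1), ‖A.coeff i‖) * ‖w‖ ^ D := by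
  unfold hev
  rw [Finset.sum_mul]
  refine (norm_sum_le _ _).trans (Finset.sum_le_sum fun i hi => ?_)
  have hi' : i ≤ D := by
    have := Finset.mem_range.1 hi
    omega
  rw [norm_mul, norm_mul, norm_pow, norm_pow, mul_assoc]
  refine mul_le_mul_of_nonneg_left ?_ (norm_nonneg _)
  calc ‖w.1‖ ^ i * ‖w.2‖ ^ (D - i) ≤ ‖w‖ ^ i * ‖w‖ ^ (D - i) :=
        mul_le_mul (pow_le_pow_left₀ (norm_nonneg _) (norm_fst_le w) i)
          (pow_le_pow_left₀ (norm_nonneg _) (norm_snd_le w) _) (by positivity) (by positivity)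
    _ = ‖w‖ ^ D := by rw [← pow_add, Nat.add_sub_cancel' hi']

theorem hev_smul (D : ℕ) (A : ℂ[X]) (a : ℂ) (w : ℂ × ℂ) :
    hev D A (a • w) = a ^ D * hev D A w := by
  unfold hev
  rw [Finset.mul_sum]
  refine Finset.sum_congr rfl fun i hi => ?_
  have hi' : i ≤ D := by
    have := Finset.mem_range.1 hi
    omega
  simp only [Prod.smul_fst, Prod.smul_snd, smul_eq_mul]
  rw [mul_pow, mul_pow]
  have : a ^ D = a ^ i * a ^ (D - i) := by rw [← pow_add, Nat.add_sub_cancel' hi']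
  rw [this]
  ring

theorem wd_norm_le (w x : ℂ × ℂ) : ‖wd w x‖ ≤ 2 * ‖w‖ * ‖x‖ := by
  unfold wd
  have h1 : ‖w.1 * x.2‖ ≤ ‖w‖ * ‖x‖ := by
    rw [norm_mul]
    exact mul_le_mul (norm_fst_le w) (norm_snd_le x) (norm_nonneg _) (norm_nonneg _)
  have h2 : ‖w.2 * x.1‖ ≤ ‖w‖ * ‖x‖ := by
    rw [norm_mul]
    exact mul_le_mul (norm_snd_le w) (norm_fst_le x) (norm_nonneg _) (norm_nonneg _)
  calc ‖w.1 * x.2 - w.2 * x.1‖ ≤ ‖w.1 * x.2‖ + ‖w.2 * x.1‖ := norm_sub_le _ _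
    _ ≤ 2 * ‖w‖ * ‖x‖ := by linarith

theorem wd_smul_left (a : ℂ) (v z : ℂ × ℂ) : wd (a • v) z = a * wd v z := by
  unfold wd
  simp only [Prod.smul_fst, Prod.smul_snd, smul_eq_mul]
  ring

theorem wd_smul_right (a : ℂ) (v z : ℂ × ℂ) : wd v (a • z) = a * wd v z := by
  unfold wd
  simp only [Prod.smul_fst, Prod.smul_snd, smul_eq_mul]
  ring

theorem exists_unit (v : ℂ × ℂ) (hv : v ≠ 0) :
    ∃ (u : ℂ × ℂ) (a : ℂ), ‖u‖ = 1 ∧ a ≠ 0 ∧ ‖a‖ = ‖v‖ ∧ v = a • u := by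
  have hn : (‖v‖ : ℝ) ≠ 0 := norm_ne_zero_iff.2 hv
  have hc : ((‖v‖ : ℝ) : ℂ) ≠ 0 := by exact_mod_cast hn
  refine ⟨((‖v‖ : ℝ) : ℂ)⁻¹ • v, ((‖v‖ : ℝ) : ℂ), ?_, hc, ?_, ?_⟩
  · rw [norm_smul, norm_inv, Complex.norm_real, norm_norm, inv_mul_cancel₀ hn]
  · rw [Complex.norm_real, norm_norm]
  · rw [smul_smul, mul_inv_cancel₀ hc, one_smul]

/-- uniform lower bound for the size of the form on the unit sphere -/
theorem exists_lower (D : ℕ) (A B : ℂ[X]) (hD : 1 ≤ D)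
    (h : ∀ z : ℂ × ℂ, z ≠ 0 → ∃ w, wd (hev D A w, hev D B w) z ≠ 0) :
    ∃ p : ℝ, 0 < p ∧ ∀ z : ℂ × ℂ, z ≠ 0 → ∃ w : ℂ × ℂ, ‖w‖ = 1 ∧
      p * ‖z‖ ≤ ‖wd (hev D A w, hev D B w) z‖ := by
  have hsm : ∀ (a : ℂ) (w : ℂ × ℂ), ((hev D A (a • w), hev D B (a • w)) : ℂ × ℂ) =
      a ^ D • ((hev D A w, hev D B w) : ℂ × ℂ) := by
    intro a w
    rw [hev_smul, hev_smul]
    rfl
  have h1 : ∀ z : ℂ × ℂ, z ≠ 0 → ∃ w, ‖w‖ = 1 ∧ wd (hev D A w, hev D B w) z ≠ 0 := by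
    intro z hz
    obtain ⟨w, hw⟩ := h z hz
    have hw0 : w ≠ 0 := by
      rintro rfl
      apply hw
      have h2 := hsm 0 0
      rw [zero_smul, zero_pow (by omega), zero_smul] at h2
      rw [h2]
      unfold wd
      simp
    obtain ⟨u, a, hu, ha, -, rfl⟩ := exists_unit w hw0
    refine ⟨u, hu, fun h0 => hw ?_⟩
    rw [hsm, wd_smul_left, h0, mul_zero]
  have hK : IsCompact (Metric.sphere (0 : ℂ × ℂ) 1) := isCompact_sphere _ _
  have h2 : ∃ p : ℝ, 0 < p ∧ ∀ z ∈ Metric.sphere (0 : ℂ × ℂ) 1, ∃ w : ℂ × ℂ, ‖w‖ = 1 ∧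
      p ≤ ‖wd (hev D A w, hev D B w) z‖ := by
    refine hK.induction_on (p := fun s => ∃ p : ℝ, 0 < p ∧ ∀ z ∈ s, ∃ w : ℂ × ℂ, ‖w‖ = 1 ∧
      p ≤ ‖wd (hev D A w, hev D B w) z‖) ?_ ?_ ?_ ?_
    · exact ⟨1, one_pos, fun z hz => absurd hz (Set.notMem_empty z)⟩
    · rintro s t hst ⟨p, hp, hpt⟩
      exact ⟨p, hp, fun z hz => hpt z (hst hz)⟩
    · rintro s t ⟨p, hp, hps⟩ ⟨q, hq, hqt⟩
      refine ⟨min p q, lt_min hp hq, ?_⟩
      rintro z (hz | hz)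
      · obtain ⟨w, hw, hw2⟩ := hps z hz
        exact ⟨w, hw, (min_le_left _ _).trans hw2⟩
      · obtain ⟨w, hw, hw2⟩ := hqt z hz
        exact ⟨w, hw, (min_le_right _ _).trans hw2⟩
    · intro z hz
      have hz0 : z ≠ 0 := by
        rintro rfl
        simp at hz
      obtain ⟨w, hw, hw2⟩ := h1 z hz0
      have hpos : 0 < ‖wd (hev D A w, hev D B w) z‖ := norm_pos_iff.2 hw2
      have hcont : Continuous fun z' : ℂ × ℂ => ‖wd (hev D A w, hev D B w) z'‖ := by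
        unfold wd
        fun_prop
      refine ⟨{z' | ‖wd (hev D A w, hev D B w) z‖ / 2 < ‖wd (hev D A w, hev D B w) z'‖},
        mem_nhdsWithin_of_mem_nhds ?_, ‖wd (hev D A w, hev D B w) z‖ / 2, by positivity,
        fun z' hz' => ⟨w, hw, le_of_lt hz'⟩⟩
      exact (isOpen_lt continuous_const hcont).mem_nhds (by
        show ‖wd (hev D A w, hev D B w) z‖ / 2 < ‖wd (hev D A w, hev D B w) z‖
        linarith)
  obtain ⟨p, hp, hp2⟩ := h2
  refine ⟨p, hp, fun z hz => ?_⟩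
  obtain ⟨u, a, hu, ha, hna, rfl⟩ := exists_unit z hz
  obtain ⟨w, hw, hw2⟩ := hp2 u (by simpa using hu)
  refine ⟨w, hw, ?_⟩
  rw [wd_smul_right, norm_mul, ← hna, mul_comm]
  exact mul_le_mul_of_nonneg_left hw2 (norm_nonneg _)

theorem pf_LJ0 (h1 : T_BF) : T_LJ0 := by
  classical
  intro D A B hD hA hB hne hnd
  obtain ⟨p, hp, hlow⟩ := exists_lower D A B hD hnd
  set M : ℝ := (∑ i ∈ Finset.range (D + 1), ‖A.coeff i‖) +
    (∑ i ∈ Finset.range (D + 1), ‖B.coeff i‖) + 1 with hM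
  have hMA : 0 ≤ ∑ i ∈ Finset.range (D + 1), ‖A.coeff i‖ :=
    Finset.sum_nonneg fun i _ => norm_nonneg _
  have hMB : 0 ≤ ∑ i ∈ Finset.range (D + 1), ‖B.coeff i‖ :=
    Finset.sum_nonneg fun i _ => norm_nonneg _
  have hMpos : 0 < M := by rw [hM]; linarith
  have hHM : ∀ w : ℂ × ℂ, ‖((hev D A w, hev D B w) : ℂ × ℂ)‖ ≤ M * ‖w‖ ^ D := by
    intro w
    rw [Prod.norm_mk]
    have hw : 0 ≤ ‖w‖ ^ D := by positivity
    refine max_le ?_ ?_
    · refine (hev_norm_le D A w).trans (mul_le_mul_of_nonneg_right ?_ hw)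
      rw [hM]; linarith
    · refine (hev_norm_le D B w).trans (mul_le_mul_of_nonneg_right ?_ hw)
      rw [hM]; linarith
  refine ⟨p / (2 ^ D * M), by positivity, fun z hz => ?_⟩
  set P : ℂ[X] := C z.2 * A - C z.1 * B with hP
  have hPw : ∀ w, wd (hev D A w, hev D B w) z = hev D P w := by
    intro w
    rw [hP, hev_sub, hev_C_mul, hev_C_mul]
    unfold wd
    ring
  have hP0 : P ≠ 0 := by
    intro h0
    obtain ⟨w, hw⟩ := hnd z hz
    apply hw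
    rw [hPw, h0]
    unfold hev
    simp
  have hPd : P.natDegree ≤ D := by
    refine (natDegree_sub_le _ _).trans (max_le ?_ ?_)
    · exact (natDegree_C_mul_le _ _).trans hA
    · exact (natDegree_C_mul_le _ _).trans hB
  obtain ⟨c, hc, x, hx, hcx⟩ := h1 D P hP0 hPd
  have hcl : p * ‖z‖ ≤ ‖c‖ * 2 ^ D := by
    obtain ⟨w, hw, hw2⟩ := hlow z hz
    rw [hPw, hcx, norm_mul, norm_prod] at hw2
    refine hw2.trans (mul_le_mul_of_nonneg_left ?_ (norm_nonneg _))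
    calc ∏ i, ‖wd w (x i)‖ ≤ ∏ _i : Fin D, (2 : ℝ) := by
          refine Finset.prod_le_prod (fun i _ => norm_nonneg _) fun i _ => ?_
          have := wd_norm_le w (x i)
          rwa [hw, hx i, mul_one, mul_one] at this
      _ = 2 ^ D := by rw [Finset.prod_const, Finset.card_univ, Fintype.card_fin]
  refine ⟨x, fun i h0 => ?_, fun w hw => ?_⟩
  · have := hx i
    rw [h0, norm_zero] at this
    exact zero_ne_one this
  · have : Nonempty (Fin D) := ⟨⟨0, hD⟩⟩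
    obtain ⟨i, hi⟩ := Finite.exists_min fun i => cd w (x i)
    refine ⟨i, ?_⟩
    have hwpos : 0 < ‖w‖ := norm_pos_iff.2 hw
    have hzpos : 0 < ‖z‖ := norm_pos_iff.2 hz
    have hHpos : 0 < ‖((hev D A w, hev D B w) : ℂ × ℂ)‖ := norm_pos_iff.2 (hne w hw)
    have hcd0 : ∀ v u : ℂ × ℂ, 0 ≤ cd v u := fun v u => by unfold cd; positivity
    have hcdx : ∀ j, ‖wd w (x j)‖ = cd w (x j) * ‖w‖ := by
      intro j
      unfold cd
      rw [hx j, mul_one]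
      field_simp
    have hprod : cd w (x i) ^ D ≤ ∏ j, cd w (x j) := by
      calc cd w (x i) ^ D = ∏ _j : Fin D, cd w (x i) := by
            rw [Finset.prod_const, Finset.card_univ, Fintype.card_fin]
        _ ≤ ∏ j, cd w (x j) := Finset.prod_le_prod (fun j _ => hcd0 _ _) fun j _ => hi j
    have hnum : ‖wd ((hev D A w, hev D B w) : ℂ × ℂ) z‖ =
        ‖c‖ * ((∏ j, cd w (x j)) * ‖w‖ ^ D) := by
      rw [hPw, hcx, norm_mul, norm_prod, Finset.prod_congr rfl fun j _ => hcdx j,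
        Finset.prod_mul_distrib, Finset.prod_const, Finset.card_univ, Fintype.card_fin]
    have hQ : 0 ≤ ∏ j, cd w (x j) := Finset.prod_nonneg fun j _ => hcd0 _ _
    show p / (2 ^ D * M) * cd w (x i) ^ D ≤ ‖wd ((hev D A w, hev D B w) : ℂ × ℂ) z‖ /
      (‖((hev D A w, hev D B w) : ℂ × ℂ)‖ * ‖z‖)
    rw [le_div_iff₀ (by positivity), hnum]
    have s1 : p / (2 ^ D * M) * cd w (x i) ^ D ≤ p / (2 ^ D * M) * ∏ j, cd w (x j) :=
      mul_le_mul_of_nonneg_left hprod (by positivity)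
    have s2 : ‖((hev D A w, hev D B w) : ℂ × ℂ)‖ * ‖z‖ ≤ M * ‖w‖ ^ D * ‖z‖ :=
      mul_le_mul_of_nonneg_right (hHM w) hzpos.le
    calc p / (2 ^ D * M) * cd w (x i) ^ D * (‖((hev D A w, hev D B w) : ℂ × ℂ)‖ * ‖z‖)
        ≤ (p / (2 ^ D * M) * ∏ j, cd w (x j)) * (M * ‖w‖ ^ D * ‖z‖) :=
          mul_le_mul s1 s2 (by positivity) (by positivity)
      _ = (p * ‖z‖) * ((∏ j, cd w (x j)) * ‖w‖ ^ D) / 2 ^ D := by
          field_simp
      _ ≤ (‖c‖ * 2 ^ D) * ((∏ j, cd w (x j)) * ‖w‖ ^ D) / 2 ^ D := by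
          refine div_le_div_of_nonneg_right ?_ (by positivity)
          exact mul_le_mul_of_nonneg_right hcl (by positivity)
      _ = ‖c‖ * ((∏ j, cd w (x j)) * ‖w‖ ^ D) := by field_simp

end Pool.Agent.H74.UDA.LJ0
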